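import Mathlib
import Pool.Agent.VM5.Stmts
import Pool.Agent.Helper98_VM5.Kit

set_option autoImplicit false

namespace Pool.Agent.VM5.H30

open Pool.Agent.VM (Nr)

theorem fin4 (m : ℤ) (hm : m ≠ 0) :
    {x : ℤ × ℤ × ℤ × ℤ | x.1 * x.2.1 * x.2.2.1 * x.2.2.2 = m}.Finite := by
  apply Set.Finite.subset (Finset.finite_toSet (Finset.Icc (-|m|) |m| ×ˢ Finset.Icc (-|m|) |m| ×ˢ
    Finset.Icc (-|m|) |m| ×ˢ Finset.Icc (-|m|) |m|))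
  rintro ⟨a, b, c, d⟩ h
  have h' : a * b * c * d = m := h
  have key : ∀ x : ℤ, x ∣ m → x ∈ Finset.Icc (-|m|) |m| := by
    intro x hx
    rw [Finset.mem_Icc, ← abs_le]
    exact Int.le_of_dvd (abs_pos.2 hm) ((abs_dvd_abs _ _).2 hx)
  simp only [Finset.coe_product, Set.mem_prod, Finset.mem_coe]
  refine ⟨key a ⟨b * c * d, ?_⟩, key b ⟨a * c * d, ?_⟩, key c ⟨a * b * d, ?_⟩,
    key d ⟨a * b * c, ?_⟩⟩ <;> rw [← h'] <;> ring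

theorem bound (n δ k u G : ℝ) (hn : 1 ≤ n) (hδ : 10 < δ) (hk : 5000 * δ ≤ k)
    (h5 : n ≤ 5 * δ * k) (hu : 1 ≤ u) (_hG1 : 1 ≤ G) (hG : G ≤ δ) (h1 : n ^ 2 ≤ u * G)
    (h2 : u ≤ n ^ 3 * G) :
    16 * (3840 * n ^ 3 * δ ^ 3 / u + 1) * (64 * δ / k ^ 2 * u + 1) ≤
      100000000 * (n * δ ^ 6) := by
  have hk0 : 0 < k := by linarith
  have hn0 : 0 < n := by linarith
  have hδ0 : 0 < δ := by linarith
  have hu0 : 0 < u := by linarith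
  have a1 : 1 / k ^ 2 ≤ 25 * δ ^ 2 / n ^ 2 := by
    rw [div_le_div_iff₀ (by positivity) (by positivity)]
    have : n ^ 2 ≤ (5 * δ * k) ^ 2 := pow_le_pow_left₀ hn0.le h5 2
    nlinarith
  have a2 : 1 / u ≤ δ / n ^ 2 := by
    rw [div_le_div_iff₀ hu0 (by positivity)]
    nlinarith
  have hδ6 : δ ^ 4 ≤ δ ^ 6 := pow_le_pow_right₀ (by linarith) (by norm_num)
  have b1 : 3840 * n ^ 3 * δ ^ 3 / u ≤ 3840 * (n * δ ^ 4) := by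
    have : 3840 * n ^ 3 * δ ^ 3 / u = 3840 * n ^ 3 * δ ^ 3 * (1 / u) := by ring
    rw [this]
    calc 3840 * n ^ 3 * δ ^ 3 * (1 / u) ≤ 3840 * n ^ 3 * δ ^ 3 * (δ / n ^ 2) :=
          mul_le_mul_of_nonneg_left a2 (by positivity)
      _ = 3840 * (n * δ ^ 4) := by field_simp
  have b2 : 64 * δ / k ^ 2 * u ≤ 1600 * (n * δ ^ 4) := by
    have e1 : 64 * δ / k ^ 2 * u = 64 * δ * u * (1 / k ^ 2) := by ring
    rw [e1]
    calc 64 * δ * u * (1 / k ^ 2) ≤ 64 * δ * u * (25 * δ ^ 2 / n ^ 2) :=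
          mul_le_mul_of_nonneg_left a1 (by positivity)
      _ ≤ 64 * δ * (n ^ 3 * δ) * (25 * δ ^ 2 / n ^ 2) := by
          have : u ≤ n ^ 3 * δ := h2.trans (mul_le_mul_of_nonneg_left hG (by positivity))
          gcongr
      _ = 1600 * (n * δ ^ 4) := by field_simp; norm_num
  have b3 : 3840 * n ^ 3 * δ ^ 3 / u * (64 * δ / k ^ 2 * u) ≤ 6144000 * (n * δ ^ 6) := by
    have e1 : 3840 * n ^ 3 * δ ^ 3 / u * (64 * δ / k ^ 2 * u) =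
        245760 * n ^ 3 * δ ^ 4 * (1 / k ^ 2) := by
      field_simp
      norm_num
    rw [e1]
    calc 245760 * n ^ 3 * δ ^ 4 * (1 / k ^ 2) ≤ 245760 * n ^ 3 * δ ^ 4 * (25 * δ ^ 2 / n ^ 2) :=
          mul_le_mul_of_nonneg_left a1 (by positivity)
      _ = 6144000 * (n * δ ^ 6) := by field_simp; norm_num
  have b4 : n * δ ^ 4 ≤ n * δ ^ 6 := mul_le_mul_of_nonneg_left hδ6 hn0.le
  have b5 : 1 ≤ n * δ ^ 6 := by
    have : (1 : ℝ) ≤ δ ^ 6 := one_le_pow₀ (by linarith)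
    nlinarith
  have e : 16 * (3840 * n ^ 3 * δ ^ 3 / u + 1) * (64 * δ / k ^ 2 * u + 1) =
      16 * (3840 * n ^ 3 * δ ^ 3 / u * (64 * δ / k ^ 2 * u) + 3840 * n ^ 3 * δ ^ 3 / u +
        64 * δ / k ^ 2 * u + 1) := by ring
  rw [e]
  linarith

theorem ycn (cnu : CnuStmt) (dvb : DvbStmt) : YcnStmt := by
  intro ε hε
  obtain ⟨C, hC, hdv⟩ := dvb (ε / 6) (by positivity)
  refine ⟨100000000 * C * (3840 : ℝ) ^ (ε / 6), by positivity, fun N D K U G t b S hpar => ?_⟩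
  obtain ⟨hDK, hN5, hD10, hD8, hKD, hG1, hGD, hNU, hUN, hU1, hgcd, htb, hS⟩ := hpar
  have hN1 : 1 ≤ N := by
    have : 1 ≤ D ^ 8 := Nat.one_le_pow _ _ (by omega)
    omega
  have hDN : D ≤ N := by
    have : D ^ 1 ≤ D ^ 8 := Nat.pow_le_pow_right (by omega) (by norm_num)
    rw [pow_one] at this
    omega
  have hn : (1 : ℝ) ≤ N := by exact_mod_cast hN1
  have hδ : (10 : ℝ) < D := by exact_mod_cast hD10
  have hk : 5000 * (D : ℝ) ≤ K := by exact_mod_cast hKD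
  have h5 : (N : ℝ) ≤ 5 * D * K := by exact_mod_cast hN5
  have hu : (1 : ℝ) ≤ U := by exact_mod_cast hU1
  have hDN' : (D : ℝ) ≤ N := by exact_mod_cast hDN
  set X : ℕ := 3840 * N ^ 3 * D ^ 3 with hX
  have hXr : (X : ℝ) = 3840 * (N : ℝ) ^ 3 * (D : ℝ) ^ 3 := by rw [hX]; push_cast; ring
  have hη : (0 : ℝ) ≤ 64 * (D : ℝ) / (K : ℝ) ^ 2 := by positivity
  have hcnu := cnu t (64 * (D : ℝ) / (K : ℝ) ^ 2) b U X hU1 hgcd htb hη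
  have hbd := bound N D K U G hn hδ hk h5 hu hG1 hGD hNU hUN
  have hPfin : {x : ℕ × ℕ × ℕ × ℤ | 1 ≤ x.1 ∧ x.1 ≤ N ∧ 1 ≤ x.2.1 ∧ x.2.1 ≤ N ∧
        x.2.2.1 ∈ S ∧ x.2.2.2 ≠ 0 ∧ |x.2.2.2| ≤ 16 * (D : ℤ) * (N : ℤ) ∧
        Nr (t * ((60 * ((x.1 : ℤ) * (x.2.1 : ℤ)) * (x.2.2.1 : ℤ) ^ 2 * x.2.2.2 : ℤ) : ℝ))
          (64 * (D : ℝ) / (K : ℝ) ^ 2)}.Finite := by
    apply Set.Finite.subset (Finset.finite_toSet (Finset.Icc 1 N ×ˢ Finset.Icc 1 N ×ˢ S ×ˢ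
      Finset.Icc (-(16 * (D : ℤ) * (N : ℤ))) (16 * (D : ℤ) * (N : ℤ))))
    rintro ⟨x1, x2, x3, x4⟩ ⟨h1, h2, h3, h4, h5, h6, h7, h8⟩
    simp only [Finset.coe_product, Set.mem_prod, Finset.mem_coe, Finset.mem_Icc]
    exact ⟨⟨h1, h2⟩, ⟨h3, h4⟩, h5, abs_le.1 h7⟩
  have hQfin : {m : ℤ | |m| ≤ (X : ℤ) ∧
      Nr (t * (m : ℝ)) (64 * (D : ℝ) / (K : ℝ) ^ 2)}.Finite := by
    apply Set.Finite.subset (Finset.finite_toSet (Finset.Icc (-(X : ℤ)) (X : ℤ)))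
    rintro m ⟨h1, _⟩
    simp only [Finset.mem_coe, Finset.mem_Icc]
    exact abs_le.1 h1
  have hmain := Kit.card_fib_le' hPfin hQfin
    (fun x => 60 * ((x.1 : ℤ) * (x.2.1 : ℤ)) * (x.2.2.1 : ℤ) ^ 2 * x.2.2.2)
    (C * (X : ℝ) ^ (ε / 6)) ?_ ?_
  · refine hmain.trans ?_
    have hX1 : (X : ℝ) ^ (ε / 6) ≤ (3840 : ℝ) ^ (ε / 6) * (N : ℝ) ^ ε := by
      have h1 : (X : ℝ) ≤ 3840 * (N : ℝ) ^ (6 : ℕ) := by
        rw [hXr]
        have : (D : ℝ) ^ 3 ≤ (N : ℝ) ^ 3 := pow_le_pow_left₀ (by positivity) hDN' 3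
        calc 3840 * (N : ℝ) ^ 3 * (D : ℝ) ^ 3 ≤ 3840 * (N : ℝ) ^ 3 * (N : ℝ) ^ 3 := by gcongr
          _ = 3840 * (N : ℝ) ^ (6 : ℕ) := by ring
      calc (X : ℝ) ^ (ε / 6) ≤ (3840 * (N : ℝ) ^ (6 : ℕ)) ^ (ε / 6) :=
            Real.rpow_le_rpow (by positivity) h1 (by positivity)
        _ = (3840 : ℝ) ^ (ε / 6) * (N : ℝ) ^ ε := by
            rw [Real.mul_rpow (by norm_num) (by positivity), ← Real.rpow_natCast,
              ← Real.rpow_mul (by positivity)]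
            congr 2
            push_cast
            ring
    have hN0 : (0 : ℝ) < N := by linarith
    calc (Nat.card {m : ℤ // |m| ≤ (X : ℤ) ∧
          Nr (t * (m : ℝ)) (64 * (D : ℝ) / (K : ℝ) ^ 2)} : ℝ) * (C * (X : ℝ) ^ (ε / 6))
        ≤ (100000000 * ((N : ℝ) * (D : ℝ) ^ 6)) *
          (C * ((3840 : ℝ) ^ (ε / 6) * (N : ℝ) ^ ε)) := by
          apply mul_le_mul _ _ (by positivity) (by positivity)
          · refine hcnu.trans ?_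
            rw [hXr]
            exact hbd
          · exact mul_le_mul_of_nonneg_left hX1 hC.le
      _ = 100000000 * C * (3840 : ℝ) ^ (ε / 6) * (N : ℝ) ^ (1 + ε) * (D : ℝ) ^ 6 := by
          rw [Real.rpow_add hN0, Real.rpow_one]
          ring
  · rintro ⟨x1, x2, x3, x4⟩ ⟨h1, h2, h3, h4, h5, h6, h7, h8⟩
    refine ⟨?_, ?_⟩
    · have h9 := (hS _ h5).2.1
      have e1 : |60 * ((x1 : ℤ) * (x2 : ℤ)) * (x3 : ℤ) ^ 2 * x4| =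
          60 * ((x1 : ℤ) * (x2 : ℤ)) * (x3 : ℤ) ^ 2 * |x4| := by
        rw [abs_mul, abs_of_nonneg (by positivity)]
      change |60 * ((x1 : ℤ) * (x2 : ℤ)) * (x3 : ℤ) ^ 2 * x4| ≤ (X : ℤ)
      rw [e1, hX]
      have i1 : (x1 : ℤ) ≤ N := by exact_mod_cast h2
      have i2 : (x2 : ℤ) ≤ N := by exact_mod_cast h4
      have i3 : (x3 : ℤ) ≤ 2 * D := by exact_mod_cast h9
      have i4 : |x4| ≤ 16 * (D : ℤ) * (N : ℤ) := h7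
      calc 60 * ((x1 : ℤ) * (x2 : ℤ)) * (x3 : ℤ) ^ 2 * |x4|
          ≤ 60 * ((N : ℤ) * (N : ℤ)) * (2 * (D : ℤ)) ^ 2 * (16 * (D : ℤ) * (N : ℤ)) := by
            gcongr
        _ = ((3840 * N ^ 3 * D ^ 3 : ℕ) : ℤ) := by push_cast; ring
    · exact h8
  · intro y _
    by_cases hy : y = 0
    · have : Nat.card {x : ℕ × ℕ × ℕ × ℤ // (1 ≤ x.1 ∧ x.1 ≤ N ∧ 1 ≤ x.2.1 ∧ x.2.1 ≤ N ∧
        x.2.2.1 ∈ S ∧ x.2.2.2 ≠ 0 ∧ |x.2.2.2| ≤ 16 * (D : ℤ) * (N : ℤ) ∧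
        Nr (t * ((60 * ((x.1 : ℤ) * (x.2.1 : ℤ)) * (x.2.2.1 : ℤ) ^ 2 * x.2.2.2 : ℤ) : ℝ))
          (64 * (D : ℝ) / (K : ℝ) ^ 2)) ∧
        60 * ((x.1 : ℤ) * (x.2.1 : ℤ)) * (x.2.2.1 : ℤ) ^ 2 * x.2.2.2 = y} = 0 := by
        rw [Nat.card_eq_zero]
        left
        refine ⟨?_⟩
        rintro ⟨⟨x1, x2, x3, x4⟩, ⟨h1, h2, h3, h4, h5, h6, h7, h8⟩, h9⟩
        have h10 := (hS _ h5).2.2.pos
        rw [hy] at h9
        have h1' : 1 ≤ x1 := h1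
        have h3' : 1 ≤ x2 := h3
        have h10' : 0 < x3 := h10
        have i1 : (x1 : ℤ) ≠ 0 := by exact_mod_cast (show x1 ≠ 0 by omega)
        have i2 : (x2 : ℤ) ≠ 0 := by exact_mod_cast (show x2 ≠ 0 by omega)
        have i3 : (x3 : ℤ) ≠ 0 := by exact_mod_cast (show x3 ≠ 0 by omega)
        have h9' : 60 * ((x1 : ℤ) * (x2 : ℤ)) * (x3 : ℤ) ^ 2 * x4 = 0 := h9
        have : 60 * ((x1 : ℤ) * (x2 : ℤ)) * (x3 : ℤ) ^ 2 * x4 ≠ 0 := by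
          have h6' : x4 ≠ 0 := h6
          positivity
        exact this h9'
      rw [this]
      simp only [Nat.cast_zero]
      positivity
    · have h1 := hdv y hy
      rename_i hyQ
      have h2 : |(y : ℝ)| ≤ (X : ℝ) := by
        have := hyQ.1
        have h3 : ((|y| : ℤ) : ℝ) ≤ ((X : ℤ) : ℝ) := by exact_mod_cast this
        simpa using h3
      have h3 : (Nat.card {x : ℕ × ℕ × ℕ × ℤ // (1 ≤ x.1 ∧ x.1 ≤ N ∧ 1 ≤ x.2.1 ∧ x.2.1 ≤ N ∧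
        x.2.2.1 ∈ S ∧ x.2.2.2 ≠ 0 ∧ |x.2.2.2| ≤ 16 * (D : ℤ) * (N : ℤ) ∧
        Nr (t * ((60 * ((x.1 : ℤ) * (x.2.1 : ℤ)) * (x.2.2.1 : ℤ) ^ 2 * x.2.2.2 : ℤ) : ℝ))
          (64 * (D : ℝ) / (K : ℝ) ^ 2)) ∧
        60 * ((x.1 : ℤ) * (x.2.1 : ℤ)) * (x.2.2.1 : ℤ) ^ 2 * x.2.2.2 = y}) ≤
          Nat.card {x : ℤ × ℤ × ℤ × ℤ // x.1 * x.2.1 * x.2.2.1 * x.2.2.2 = y} := by
        refine Kit.card_inj_le
          (fun x : ℕ × ℕ × ℕ × ℤ => (60 * (x.1 : ℤ), (x.2.1 : ℤ), (x.2.2.1 : ℤ) ^ 2, x.2.2.2))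
          (fin4 y hy) ?_ ?_
        · rintro ⟨x1, x2, x3, x4⟩ ⟨_, h9⟩
          have h9' : 60 * ((x1 : ℤ) * (x2 : ℤ)) * (x3 : ℤ) ^ 2 * x4 = y := h9
          change 60 * (x1 : ℤ) * (x2 : ℤ) * (x3 : ℤ) ^ 2 * x4 = y
          rw [← h9']
          ring
        · rintro ⟨x1, x2, x3, x4⟩ ⟨y1, y2, y3, y4⟩ _ _ h
          simp only [Prod.mk.injEq] at h
          obtain ⟨e1, e2, e3, e4⟩ := h
          have f1 : x1 = y1 := by omega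
          have f2 : x2 = y2 := by omega
          have f3 : x3 = y3 := by
            have h10 : (x3 ^ 2 : ℕ) = y3 ^ 2 := by exact_mod_cast e3
            exact Nat.pow_left_injective (n := 2) (by norm_num) h10
          rw [f1, f2, f3, e4]
      calc (Nat.card _ : ℝ) ≤ (Nat.card {x : ℤ × ℤ × ℤ × ℤ //
              x.1 * x.2.1 * x.2.2.1 * x.2.2.2 = y} : ℝ) := by exact_mod_cast h3
        _ ≤ C * |(y : ℝ)| ^ (ε / 6) := h1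
        _ ≤ C * (X : ℝ) ^ (ε / 6) := by
            apply mul_le_mul_of_nonneg_left _ hC.le
            exact Real.rpow_le_rpow (abs_nonneg _) h2 (by positivity)

end Pool.Agent.VM5.H30
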